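import Mathlib
import Pool.Agent.U115.WN.Stm

/-!
# Project WN, package CMS2 (helper480)

`sym_sum` and the computation of the product of the `M / 2 ^ (e i + e j)` are those of
`Pool/Agent/U461/WM/CMS.lean`.
-/

set_option autoImplicit false

namespace Pool.Agent.U480.WN

open Pool.Agent.U115.WM Pool.Agent.U115.WN

theorem sym_sum (k : ℕ) (h : Fin k → Fin k → ℕ) (hs : ∀ i j, h i j = h j i) :
    2 * ∑ p ∈ (Finset.univ : Finset (Fin k × Fin k)).filter (fun p => p.1 ≤ p.2), h p.1 p.2 =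
      (∑ i, ∑ j, h i j) + ∑ i, h i i := by
  rw [Finset.sum_filter, ← Finset.univ_product_univ, Finset.sum_product]
  have h1 : ∑ i : Fin k, ∑ j : Fin k, (if i ≤ j then h i j else 0) =
      ∑ i : Fin k, ∑ j : Fin k, (if j ≤ i then h i j else 0) := by
    rw [Finset.sum_comm]
    apply Finset.sum_congr rfl
    intro i _
    apply Finset.sum_congr rfl
    intro j _
    rw [hs]
  have h2 : ∑ i : Fin k, ∑ j : Fin k, (if i ≤ j then h i j else 0) +
      ∑ i : Fin k, ∑ j : Fin k, (if j ≤ i then h i j else 0) =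
      (∑ i, ∑ j, h i j) + ∑ i, h i i := by
    rw [← Finset.sum_add_distrib, ← Finset.sum_add_distrib]
    apply Finset.sum_congr rfl
    intro i _
    have h3 : h i i = ∑ j : Fin k, if i = j then h i j else 0 := by
      rw [Finset.sum_ite_eq]
      simp
    rw [h3, ← Finset.sum_add_distrib, ← Finset.sum_add_distrib]
    apply Finset.sum_congr rfl
    intro j _
    rcases lt_trichotomy i j with hij | hij | hij
    · rw [if_pos hij.le, if_neg (not_le.2 hij), if_neg hij.ne]
    · subst hij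
      simp
    · rw [if_neg (not_le.2 hij), if_pos hij.le, if_neg hij.ne']
      simp
  rw [← h2, ← h1]
  ring

theorem mx {M : ℝ} (hM : 0 < M) {n m c : ℕ} (hc : (2 : ℝ) ^ c ≤ M) (h : n ≤ m + c) :
    max 1 ((2 : ℝ) ^ n / M) ≤ 2 ^ m := by
  apply max_le (one_le_pow₀ (by norm_num))
  rw [div_le_iff₀ hM]
  calc (2 : ℝ) ^ n ≤ 2 ^ (m + c) := pow_le_pow_right₀ (by norm_num) h
    _ = 2 ^ m * 2 ^ c := pow_add _ _ _
    _ ≤ 2 ^ m * M := mul_le_mul_of_nonneg_left hc (by positivity)

/-- the product of the `max 1 (1 / x)` -/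
theorem prod_mx (k : ℕ) (e : Fin k → ℕ) (M : ℝ) (hk : 3 ≤ k) (he : Monotone e) (hM : 0 < M)
    (hrev : ∀ i, (2 : ℝ) ^ (e i + e i.rev) ≤ M) :
    ∏ p ∈ (Finset.univ : Finset (Fin k × Fin k)).filter (fun p => p.1 ≤ p.2),
      max 1 ((2 : ℝ) ^ (e p.1 + e p.2) / M) ≤ gap e * (2 : ℝ) ^ (-(spr e : ℝ) / 2) := by
  obtain ⟨F, hF⟩ : ∃ F : Fin k × Fin k → ℝ, F = fun p =>
    if p.2 ≤ p.1.rev then max 1 ((2 : ℝ) ^ (e p.2 + e p.1.rev) / M) else 1 := ⟨_, rfl⟩
  obtain ⟨G, hG⟩ : ∃ G : Fin k × Fin k → ℝ, G = fun p => (2 : ℝ) ^ (e p.2 - e p.1) := ⟨_, rfl⟩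
  have h1 : ∏ p ∈ (Finset.univ : Finset (Fin k × Fin k)).filter (fun p => p.1 ≤ p.2),
      max 1 ((2 : ℝ) ^ (e p.1 + e p.2) / M) = ∏ p, F p := by
    rw [Finset.prod_filter]
    let φ : Fin k × Fin k ≃ Fin k × Fin k :=
      { toFun := fun p => (p.2.rev, p.1)
        invFun := fun p => (p.2, p.1.rev)
        left_inv := fun p => by simp
        right_inv := fun p => by simp }
    rw [← Equiv.prod_comp φ F]
    apply Finset.prod_congr rfl
    intro p _
    simp only [hF, φ, Equiv.coe_fn_mk, Fin.rev_rev]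
  have h2 : gap e = ∏ p, G p := by
    unfold gap
    rw [Finset.prod_filter, hG]
    apply Finset.prod_congr rfl
    intro p _
    dsimp only
    by_cases hp : p.1 < p.2
    · rw [if_pos hp]
    · rw [if_neg hp, Nat.sub_eq_zero_of_le (he (not_lt.1 hp)), pow_zero]
  have hF1 : ∀ p, 1 ≤ F p := by
    intro p
    rw [hF]
    dsimp only
    split_ifs
    · exact le_max_left _ _
    · exact le_rfl
  have hFG : ∀ p, F p ≤ G p := by
    intro p
    rw [hF, hG]
    dsimp only
    split_ifs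
    · exact mx hM (hrev p.1) (by omega)
    · exact one_le_pow₀ (by norm_num)
  let i0 : Fin k := ⟨0, by omega⟩
  let i1 : Fin k := ⟨1, by omega⟩
  let i2 : Fin k := ⟨k - 1, by omega⟩
  have r0 : i0.rev = i2 := by
    apply Fin.ext; simp [i0, i2, Fin.val_rev]
  have r1 : i1 ≤ i1.rev := by
    rw [Fin.le_def, Fin.val_rev]; simp only [i1]; omega
  have l01 : i0 ≤ i1 := by rw [Fin.le_def]; simp [i0, i1]
  have l12 : i1 < i2 := by rw [Fin.lt_def]; simp only [i1, i2]; omega
  have e01 : e i0 ≤ e i1 := he l01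
  have e12 : e i1 ≤ e i2 := he l12.le
  have er1 : e i1 ≤ e i1.rev := he r1
  have hM1 : (2 : ℝ) ^ (e i1 + e i1) ≤ M :=
    le_trans (pow_le_pow_right₀ (by norm_num) (by omega)) (hrev i1)
  have hM0 : (2 : ℝ) ^ (e i0 + e i2) ≤ M := by
    have := hrev i0
    rwa [r0] at this
  have hspr : spr e ≤ e i2 - e i0 := by
    unfold spr
    apply Finset.sup_le
    intro p _
    have h3 : e p.2 ≤ e i2 := he (by rw [Fin.le_def]; simp only [i2]; omega)
    have h4 : e i0 ≤ e p.1 := he (by rw [Fin.le_def]; simp [i0])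
    omega
  obtain ⟨m, hm⟩ : ∃ m : ℕ, m = min (e i1 - e i0) (e i2 - e i1) := ⟨_, rfl⟩
  have f01 : F (i0, i1) ≤ 2 ^ m := by
    rw [hF]
    dsimp only
    rw [if_pos (by rw [r0]; exact l12.le), r0]
    rcases le_total (e i1 - e i0) (e i2 - e i1) with h | h
    · exact mx hM hM0 (by omega)
    · exact mx hM hM1 (by omega)
  have f02 : F (i0, i2) ≤ 2 ^ (m + (e i2 - e i1)) := by
    rw [hF]
    dsimp only
    rw [if_pos (by rw [r0]), r0]
    rcases le_total (e i1 - e i0) (e i2 - e i1) with h | h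
    · exact mx hM hM0 (by omega)
    · exact mx hM hM1 (by omega)
  have f12 : F (i1, i2) = 1 := by
    rw [hF]
    dsimp only
    rw [if_neg]
    rw [Fin.le_def, Fin.val_rev]; simp only [i1, i2]; omega
  have hne1 : (i0, i1) ∉ ({(i0, i2), (i1, i2)} : Finset (Fin k × Fin k)) := by
    simp only [Finset.mem_insert, Finset.mem_singleton, Prod.mk.injEq, not_or, not_and]
    exact ⟨fun _ h => l12.ne h, fun _ h => l12.ne h⟩
  have hne2 : (i0, i2) ∉ ({(i1, i2)} : Finset (Fin k × Fin k)) := by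
    simp only [Finset.mem_singleton, Prod.mk.injEq, not_and]
    intro h
    simp [i0, i1] at h
  have hS : ∀ f : Fin k × Fin k → ℝ, ∏ p ∈ ({(i0, i1), (i0, i2), (i1, i2)} : Finset (Fin k × Fin k)),
      f p = f (i0, i1) * (f (i0, i2) * f (i1, i2)) := by
    intro f
    rw [Finset.prod_insert hne1, Finset.prod_insert hne2, Finset.prod_singleton]
  have hprod3 : ∏ p ∈ ({(i0, i1), (i0, i2), (i1, i2)} : Finset (Fin k × Fin k)), F p ≤
      (∏ p ∈ ({(i0, i1), (i0, i2), (i1, i2)} : Finset (Fin k × Fin k)), G p) *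
        (2 : ℝ) ^ (-(spr e : ℝ) / 2) := by
    rw [hS, hS, f12, hG]
    dsimp only
    calc F (i0, i1) * (F (i0, i2) * 1) ≤ 2 ^ m * (2 ^ (m + (e i2 - e i1)) * 1) := by
          apply mul_le_mul f01 _ _ (by positivity)
          · exact mul_le_mul_of_nonneg_right f02 zero_le_one
          · have := hF1 (i0, i2)
            positivity
      _ = (2 : ℝ) ^ ((m + (m + (e i2 - e i1)) : ℕ) : ℝ) := by
          rw [Real.rpow_natCast, mul_one, ← pow_add]
      _ ≤ (2 : ℝ) ^ ((((e i1 - e i0) + ((e i2 - e i0) + (e i2 - e i1)) : ℕ) : ℝ) +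
            (-(spr e : ℝ) / 2)) := by
          apply Real.rpow_le_rpow_of_exponent_le (by norm_num)
          have h5 : 2 * (m + (m + (e i2 - e i1))) + spr e ≤
            2 * ((e i1 - e i0) + ((e i2 - e i0) + (e i2 - e i1))) := by omega
          have h6 : (2 : ℝ) * ((m + (m + (e i2 - e i1)) : ℕ) : ℝ) + (spr e : ℝ) ≤
            2 * (((e i1 - e i0) + ((e i2 - e i0) + (e i2 - e i1)) : ℕ) : ℝ) := by exact_mod_cast h5
          linarith
      _ = _ := by
          rw [Real.rpow_add (by norm_num), Real.rpow_natCast, pow_add, pow_add]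
  rw [h1, h2, ← Finset.prod_mul_prod_compl ({(i0, i1), (i0, i2), (i1, i2)} : Finset (Fin k × Fin k)) F,
    ← Finset.prod_mul_prod_compl ({(i0, i1), (i0, i2), (i1, i2)} : Finset (Fin k × Fin k)) G]
  calc _ ≤ ((∏ p ∈ ({(i0, i1), (i0, i2), (i1, i2)} : Finset (Fin k × Fin k)), G p) *
        (2 : ℝ) ^ (-(spr e : ℝ) / 2)) *
        ∏ p ∈ ({(i0, i1), (i0, i2), (i1, i2)} : Finset (Fin k × Fin k))ᶜ, G p := by
        apply mul_le_mul hprod3
        · exact Finset.prod_le_prod (fun p _ => le_trans zero_le_one (hF1 p)) (fun p _ => hFG p)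
        · exact Finset.prod_nonneg (fun p _ => le_trans zero_le_one (hF1 p))
        · apply mul_nonneg _ (by positivity)
          exact Finset.prod_nonneg (fun p _ => le_trans (le_trans zero_le_one (hF1 p)) (hFG p))
    _ = _ := by ring

theorem t_CMS2 : S_CMS2 := by
  intro k e M hk he hM hrev
  obtain ⟨s, hs⟩ : ∃ s : ℕ, s = ∑ i, e i := ⟨_, rfl⟩
  have hvol : vol e = 2 ^ s := by
    unfold vol
    rw [Finset.prod_pow_eq_pow_sum, hs]
  let T : Finset (Fin k × Fin k) := Finset.univ.filter (fun p => p.1 ≤ p.2)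
  have hT : 2 * T.card = k * (k + 1) := by
    have h1 := sym_sum k (fun _ _ => 1) (fun _ _ => rfl)
    simp only [Finset.sum_const, Finset.card_univ, Fintype.card_fin, smul_eq_mul, mul_one] at h1
    change 2 * T.card = k * k + k at h1
    rw [h1]; ring
  have hE : ∑ p ∈ T, (e p.1 + e p.2) = (k + 1) * s := by
    have h1 := sym_sum k (fun i j => e i + e j) (fun _ _ => add_comm _ _)
    simp only [Finset.sum_add_distrib, Finset.sum_const, Finset.card_univ, Fintype.card_fin,
      smul_eq_mul, ← Finset.mul_sum, ← hs] at h1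
    rw [← Finset.sum_add_distrib] at h1
    change 2 * ∑ p ∈ T, (e p.1 + e p.2) = _ at h1
    have h2 : k * s + k * s + (s + s) = 2 * ((k + 1) * s) := by ring
    rw [h2] at h1
    exact Nat.eq_of_mul_eq_mul_left (by norm_num) h1
  rw [← Finset.prod_subtype T (p := fun p : Fin k × Fin k => p.1 ≤ p.2) (by intro x; simp [T])
    (fun p => max 1 (M / 2 ^ (e p.1 + e p.2)))]
  have hpt : ∀ p ∈ T, max 1 (M / 2 ^ (e p.1 + e p.2)) =
      (M / 2 ^ (e p.1 + e p.2)) * max 1 (2 ^ (e p.1 + e p.2) / M) := by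
    intro p _
    have hx : 0 < M / 2 ^ (e p.1 + e p.2) := by positivity
    rw [mul_max_of_nonneg _ _ hx.le, mul_one, max_comm]
    congr 1
    field_simp
  rw [Finset.prod_congr rfl hpt, Finset.prod_mul_distrib, Finset.prod_div_distrib,
    Finset.prod_const, Finset.prod_pow_eq_pow_sum, hE, mul_assoc]
  have hTr : ((T.card : ℕ) : ℝ) = (k : ℝ) * (((k : ℝ) + 1) / 2) := by
    have : (2 : ℝ) * (T.card : ℝ) = (k : ℝ) * ((k : ℝ) + 1) := by exact_mod_cast hT
    linarith
  have hx : M ^ T.card / 2 ^ ((k + 1) * s) = (M ^ (k : ℝ) * vol e ^ (-2 : ℝ)) ^ (((k : ℝ) + 1) / 2) := by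
    rw [hvol, Real.mul_rpow (by positivity) (by positivity), ← Real.rpow_mul hM.le,
      ← Real.rpow_mul (by positivity), ← hTr, Real.rpow_natCast, div_eq_mul_inv]
    congr 1
    have h2 : (-2 : ℝ) * (((k : ℝ) + 1) / 2) = -((k + 1 : ℕ) : ℝ) := by
      push_cast; ring
    rw [h2, Real.rpow_neg (by positivity), Real.rpow_natCast, ← pow_mul, mul_comm s]
  rw [← hx]
  apply mul_le_mul_of_nonneg_left _ (by positivity)
  convert prod_mx k e M hk he hM hrev

end Pool.Agent.U480.WN
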